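import Pool.Agent.Helper589_Four.F10

namespace Pool.Agent.Results.MP_d9b9c4_co.TypeOneOrderDivisibleByEight

/-- The circulant graph Cay(Z_n, T), for an inverse-closed T without 0. -/
def circ {n : ℕ} (T : Set (ZMod n)) : SimpleGraph (ZMod n) :=
  SimpleGraph.fromRel (fun x y => y - x ∈ T)

/-- The direct product of a graph with K_2. -/
def timesK2 {V : Type} (G : SimpleGraph V) : SimpleGraph (V × Bool) where
  Adj p q := G.Adj p.1 q.1 ∧ p.2 ≠ q.2
  symm := ⟨fun _ _ h => ⟨h.1.symm, h.2.symm⟩⟩
  loopless := ⟨fun _ h => h.2 rfl⟩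

/-- Every automorphism of G × K_2 acts coordinatewise, as an automorphism of G and a permutation
of the vertices of K_2. -/
def Stable {V : Type} (G : SimpleGraph V) : Prop :=
  ∀ φ : timesK2 G ≃g timesK2 G, ∃ (a : G ≃g G) (b : Equiv.Perm Bool),
    ∀ p : V × Bool, φ p = (a p.1, b p.2)

/-- Unstable, connected, non-bipartite, and distinct vertices have distinct neighbourhoods. -/
def NontriviallyUnstable {V : Type} (G : SimpleGraph V) : Prop :=
  ¬ Stable G ∧ G.Connected ∧ ¬ G.Colorable 2 ∧
    ∀ u v : V, G.neighborSet u = G.neighborSet v → u = v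

/-- The subgroup 2 Z_n. -/
def evens (n : ℕ) : AddSubgroup (ZMod n) := AddSubgroup.zmultiples 2

/-- Cay(Z_n, S) is of Type I. -/
def TypeI {n : ℕ} (S : Set (ZMod n)) : Prop :=
  ∃ σ ρ : circ (S \ evens n) ≃g circ (S \ evens n), σ ≠ ρ ∧
    σ '' (evens n : Set (ZMod n)) = evens n ∧ ρ '' (evens n : Set (ZMod n)) = evens n ∧
    ∀ x y : ZMod n, y - x ∈ S ∩ evens n → ρ y - σ x ∈ S ∩ evens n

/-- Two-fold automorphisms of G. -/
def IsTF {V : Type} (G : SimpleGraph V) (α β : Equiv.Perm V) : Prop :=
  ∀ u v : V, G.Adj u v ↔ G.Adj (α u) (β v)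

section TF

variable {V : Type} {G : SimpleGraph V}

lemma IsTF.refl : IsTF G 1 1 := fun _ _ => Iff.rfl

lemma IsTF.mul {α β γ δ : Equiv.Perm V} (h : IsTF G α β) (h' : IsTF G γ δ) :
    IsTF G (α * γ) (β * δ) := fun u v => (h' u v).trans (h (γ u) (δ v))

lemma IsTF.inv {α β : Equiv.Perm V} (h : IsTF G α β) : IsTF G α⁻¹ β⁻¹ := by
  intro u v
  have := h (α⁻¹ u) (β⁻¹ v)
  simpa using this.symm

lemma IsTF.swap {α β : Equiv.Perm V} (h : IsTF G α β) : IsTF G β α := by
  intro u v
  rw [G.adj_comm u v, h v u, G.adj_comm]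

/-- flip of the second coordinate. -/
def flip (e : Multiplicative (ZMod 2)) (b : Bool) : Bool := if e = 1 then b else !b

lemma flip_mul (e f : Multiplicative (ZMod 2)) (b : Bool) : flip (e * f) b = flip e (flip f b) := by
  revert e f b; decide

lemma flip_one (b : Bool) : flip 1 b = b := by revert b; decide

lemma flip_flip (e : Multiplicative (ZMod 2)) (b : Bool) : flip e (flip e b) = b := by
  revert e b; decide

lemma flip_inj (e : Multiplicative (ZMod 2)) {b c : Bool} : flip e b = flip e c ↔ b = c := by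
  revert e b c; decide

/-- The automorphism of G × K_2 given by an automorphism of G and an element of Z_2. -/
def lift (G : SimpleGraph V) (x : (G ≃g G) × Multiplicative (ZMod 2)) : timesK2 G ≃g timesK2 G where
  toFun p := (x.1 p.1, flip x.2 p.2)
  invFun p := (x.1.symm p.1, flip x.2 p.2)
  left_inv p := by simp [flip_flip]
  right_inv p := by simp [flip_flip]
  map_rel_iff' := by
    intro p q
    have h : G.Adj (x.1 p.1) (x.1 q.1) ↔ G.Adj p.1 q.1 := x.1.map_rel_iff
    simp [timesK2, flip_inj, h]

/-- `lift` as a homomorphism. -/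
def liftHom (G : SimpleGraph V) : ((G ≃g G) × Multiplicative (ZMod 2)) →* (timesK2 G ≃g timesK2 G) where
  toFun := lift G
  map_one' := by
    ext p
    · simp [lift]
    · simp [lift, flip_one]
  map_mul' x y := by
    apply RelIso.ext
    intro p
    exact Prod.ext rfl (flip_mul _ _ _)

lemma liftHom_injective [Nonempty V] : Function.Injective (liftHom G) := by
  intro x y h
  have h1 : ∀ p, (liftHom G x) p = (liftHom G y) p := fun p => by rw [h]
  have h2 : ∀ p : V × Bool, (x.1 p.1, flip x.2 p.2) = (y.1 p.1, flip y.2 p.2) := h1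
  obtain ⟨v⟩ := ‹Nonempty V›
  apply Prod.ext
  · ext w
    exact congrArg Prod.fst (h2 (w, false))
  · have h3 := congrArg Prod.snd (h2 (v, false))
    have h4 : ∀ e f : Multiplicative (ZMod 2), flip e false = flip f false → e = f := by decide
    exact h4 _ _ h3

/-- If all two-fold automorphisms are trivial, a connected non-bipartite graph is stable. -/
lemma liftHom_surjective (hc : G.Connected) (hb : ¬ G.Colorable 2)
    (hT : ∀ α β : Equiv.Perm V, IsTF G α β → α = β) : Function.Surjective (liftHom G) := by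
  classical
  intro φ
  have hadj : ∀ p q : V × Bool, (timesK2 G).Adj (φ p) (φ q) ↔ (timesK2 G).Adj p q :=
    fun p q => φ.map_rel_iff
  -- side functions
  have hside : ∀ u v : V, G.Adj u v → ∀ i : Bool,
      (((φ (u, i)).2 ^^ i) = ((φ (v, !i)).2 ^^ (!i))) := by
    intro u v huv i
    have h1 : (timesK2 G).Adj (u, i) (v, !i) := ⟨huv, by simp⟩
    have h2 := ((hadj _ _).2 h1).2
    clear h1
    revert h2
    generalize (φ (u, i)).2 = a
    generalize (φ (v, !i)).2 = b
    revert a b i; decide
  set f : V → Bool := fun u => (φ (u, false)).2 with hf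
  set g : V → Bool := fun u => !(φ (u, true)).2 with hg
  have hfg : ∀ u v, G.Adj u v → f u = g v := by
    intro u v huv
    have := hside u v huv false
    simpa [hf, hg] using this
  have hgf : ∀ u v, G.Adj u v → g u = f v := fun u v huv => (hfg v u huv.symm).symm
  have hconst : ∀ u v, G.Reachable u v → ((f u ^^ g u) = (f v ^^ g v)) := by
    intro u v ⟨p⟩
    induction p with
    | nil => rfl
    | cons h p ih =>
      rw [← ih, hfg _ _ h, hgf _ _ h, Bool.xor_comm]
  obtain ⟨v0⟩ := hc.nonempty
  have heq : ∀ u, f u = g u := by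
    by_contra hne
    push Not at hne
    obtain ⟨w, hw⟩ := hne
    apply hb
    have hall : ∀ u, f u ≠ g u := by
      intro u hu
      have := hconst u w (hc.preconnected u w)
      rw [hu, Bool.xor_self] at this
      apply hw
      revert this
      generalize f w = a
      generalize g w = b
      revert a b; decide
    refine ⟨SimpleGraph.Coloring.mk (fun u => if f u then 0 else 1) ?_⟩
    intro u v huv
    have h1 := hfg u v huv
    have h2 := hall v
    rw [← h1] at h2
    revert h2
    generalize f u = a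
    generalize f v = b
    revert a b; decide
  have hconst' : ∀ u v, G.Reachable u v → f u = f v := by
    intro u v ⟨p⟩
    induction p with
    | nil => rfl
    | cons h p ih => rw [← ih, hfg _ _ h, ← heq]
  have hf0 : ∀ u, f u = f v0 := fun u => hconst' u v0 (hc.preconnected u v0)
  -- the flip
  set e : Multiplicative (ZMod 2) := if f v0 then Multiplicative.ofAdd 1 else 1 with he
  have hflip : ∀ u i, flip e (φ (u, i)).2 = i := by
    intro u i
    have h1 := hf0 u
    have h2 := heq u
    rw [h1] at h2
    cases i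
    · have h3 : (φ (u, false)).2 = f v0 := h1
      rw [h3, he]
      generalize f v0 = a
      revert a; decide
    · have h3 : (!(φ (u, true)).2) = f v0 := h2.symm
      have h4 : (φ (u, true)).2 = !(f v0) := by rw [← h3]; simp
      rw [h4, he]
      generalize f v0 = a
      revert a; decide
  set ψ : timesK2 G ≃g timesK2 G := liftHom G (1, e) * φ with hψ
  have hψ2 : ∀ p, (ψ p).2 = p.2 := by
    rintro ⟨u, i⟩
    exact hflip u i
  have hψs2 : ∀ p, (ψ.symm p).2 = p.2 := by
    intro p
    have := hψ2 (ψ.symm p)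
    rw [← this]
    simp
  have hψadj : ∀ p q : V × Bool, (timesK2 G).Adj (ψ p) (ψ q) ↔ (timesK2 G).Adj p q :=
    fun p q => ψ.map_rel_iff
  -- the two parts
  have key : ∀ i, ∃ α : Equiv.Perm V, ∀ u, ψ (u, i) = (α u, i) := by
    intro i
    refine ⟨⟨fun u => (ψ (u, i)).1, fun u => (ψ.symm (u, i)).1, ?_, ?_⟩, ?_⟩
    · intro u
      have h1 : ((ψ (u, i)).1, i) = ψ (u, i) := Prod.ext rfl (hψ2 (u, i)).symm
      change (ψ.symm ((ψ (u, i)).1, i)).1 = u
      rw [h1]; simp
    · intro u
      have h1 : ((ψ.symm (u, i)).1, i) = ψ.symm (u, i) := Prod.ext rfl (hψs2 (u, i)).symm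
      change (ψ ((ψ.symm (u, i)).1, i)).1 = u
      rw [h1]; simp
    · intro u
      exact Prod.ext rfl (hψ2 (u, i))
  obtain ⟨α, hα⟩ := key false
  obtain ⟨β, hβ⟩ := key true
  have hTF : IsTF G α β := by
    intro u v
    have h1 := hψadj (u, false) (v, true)
    rw [hα, hβ] at h1
    simpa [timesK2] using h1.symm
  have hαβ := hT α β hTF
  subst hαβ
  let a : G ≃g G := ⟨α, by intro u v; exact (hTF u v).symm⟩
  refine ⟨(1, e) * (a, 1), ?_⟩
  have h1 : liftHom G (a, 1) = ψ := by
    apply RelIso.ext
    rintro ⟨u, i⟩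
    have h2 : (liftHom G (a, 1)) (u, i) = (α u, i) := by
      change (a u, flip 1 i) = (α u, i)
      rw [flip_one]; rfl
    rw [h2]
    cases i
    · exact (hα u).symm
    · exact (hβ u).symm
  have h5 : liftHom G (1, e) * liftHom G (1, e) = 1 := by
    rw [← map_mul]
    have : ((1, e) : (G ≃g G) × Multiplicative (ZMod 2)) * (1, e) = 1 := by
      apply Prod.ext
      · simp
      · change e * e = 1
        generalize e = e'
        revert e'; decide
    rw [this, map_one]
  rw [map_mul, h1, hψ, ← mul_assoc, h5, one_mul]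

/-- An unstable connected non-bipartite graph has a nontrivial two-fold automorphism. -/
lemma exists_nontrivial (hU : NontriviallyUnstable G) :
    ∃ α β : Equiv.Perm V, IsTF G α β ∧ α ≠ β := by
  by_contra hcon
  push Not at hcon
  obtain ⟨h1, h2, h3, -⟩ := hU
  apply h1
  intro φ
  obtain ⟨x, hx⟩ := liftHom_surjective h2 h3 hcon φ
  refine ⟨x.1, ⟨flip x.2, flip x.2, flip_flip x.2, flip_flip x.2⟩, fun p => ?_⟩
  rw [← hx]
  rfl

end TF

section Bridge

variable {n : ℕ} {S : Set (ZMod n)}

lemma circ_adj (hneg : ∀ x ∈ S, -x ∈ S) (h0 : (0 : ZMod n) ∉ S)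
    (u v : ZMod n) : (circ S).Adj u v ↔ v - u ∈ S := by
  unfold circ
  rw [SimpleGraph.fromRel_adj]
  constructor
  · rintro ⟨-, h | h⟩
    · exact h
    · have := hneg _ h
      rwa [neg_sub] at this
  · intro h
    refine ⟨?_, Or.inl h⟩
    rintro rfl
    rw [sub_self] at h
    exact h0 h

open Classical in
/-- indicator function with values in Z_2 -/
noncomputable def ind (S : Set (ZMod n)) (x : ZMod n) : ZMod 2 :=
  if x ∈ S then 1 else 0

lemma ind_eq_one (x : ZMod n) : ind S x = 1 ↔ x ∈ S := by
  unfold ind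
  by_cases h : x ∈ S
  · simp [h]
  · simp [h]

lemma ind_congr {x y : ZMod n} (h : x ∈ S ↔ y ∈ S) : ind S x = ind S y := by
  apply Helper589Four.z2_ext
  rw [ind_eq_one, ind_eq_one, h]

lemma ind_iff {x y : ZMod n} (h : ind S x = ind S y) : x ∈ S ↔ y ∈ S := by
  rw [← ind_eq_one, ← ind_eq_one, h]

lemma mem_evens [NeZero n] [Fact (4 ∣ n)] (x : ZMod n) :
    x ∈ evens n ↔ Helper589Four.par x = 0 := by
  constructor
  · intro h
    obtain ⟨k, hk⟩ := AddSubgroup.mem_zmultiples_iff.1 h
    rw [← hk, zsmul_eq_mul, mul_comm, Helper589Four.par_two_mul]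
  · intro h
    obtain ⟨y, hy⟩ := Helper589Four.exists_half h
    rw [hy, two_mul]
    have h1 : y + y = y.val • (2 : ZMod n) := by
      rw [nsmul_eq_mul, ZMod.natCast_zmod_val]; ring
    rw [h1]
    exact AddSubgroup.nsmul_mem _ (AddSubgroup.mem_zmultiples 2) _

lemma image_evens [NeZero n] [Fact (4 ∣ n)] {α : Equiv.Perm (ZMod n)}
    (hα : ∀ x, Helper589Four.par (α x) = Helper589Four.par x) :
    α '' (evens n : Set (ZMod n)) = evens n := by
  ext x
  constructor
  · rintro ⟨y, hy, rfl⟩
    have h2 := (mem_evens y).1 hy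
    exact (mem_evens _).2 (by rw [hα, h2])
  · intro hx
    refine ⟨α.symm x, ?_, by simp⟩
    apply (mem_evens _).2
    rw [← hα, Equiv.apply_symm_apply]
    exact (mem_evens x).1 hx

/-- The permutation that is α on the even residues and β on the odd residues. -/
noncomputable def glue [NeZero n] [Fact (4 ∣ n)] (α β : Equiv.Perm (ZMod n))
    (hα : ∀ x, Helper589Four.par (α x) = Helper589Four.par x)
    (hβ : ∀ x, Helper589Four.par (β x) = Helper589Four.par x) : Equiv.Perm (ZMod n) :=
  Equiv.ofBijective (fun x => if Helper589Four.par x = 0 then α x else β x)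
    (Finite.injective_iff_bijective.1 (by
      intro x y hxy
      by_cases h1 : Helper589Four.par x = 0 <;> by_cases h2 : Helper589Four.par y = 0
      · simp only [h1, h2, if_true] at hxy
        exact α.injective hxy
      · exfalso
        simp only [h1, h2, if_true, if_false] at hxy
        apply h2
        rw [← hβ, ← hxy, hα, h1]
      · exfalso
        simp only [h1, h2, if_true, if_false] at hxy
        apply h1
        rw [← hβ, hxy, hα, h2]
      · simp only [h1, h2, if_false] at hxy
        exact β.injective hxy))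

section Glue

variable [NeZero n] [Fact (4 ∣ n)] {α β : Equiv.Perm (ZMod n)}
    (hα : ∀ x, Helper589Four.par (α x) = Helper589Four.par x)
    (hβ : ∀ x, Helper589Four.par (β x) = Helper589Four.par x)

include hα hβ

lemma glue_even {x : ZMod n} (h : Helper589Four.par x = 0) : glue α β hα hβ x = α x := if_pos h

lemma glue_odd {x : ZMod n} (h : Helper589Four.par x = 1) : glue α β hα hβ x = β x :=
  if_neg (by rw [h]; decide)

lemma glue_par (x : ZMod n) :
    Helper589Four.par (glue α β hα hβ x) = Helper589Four.par x := by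
  rcases Helper589Four.z2_cases (Helper589Four.par x) with h | h
  · rw [glue_even hα hβ h, hα]
  · rw [glue_odd hα hβ h, hβ]

/-- The glued permutation is an automorphism of the circulant of the odd part. -/
lemma glue_aut (hneg : ∀ x ∈ S, -x ∈ S) (hT : Helper589Four.TF (ind S) α β) (x y : ZMod n) :
    glue α β hα hβ y - glue α β hα hβ x ∈ S \ evens n ↔ y - x ∈ S \ evens n := by
  have hsym : ∀ z, z ∈ S ↔ -z ∈ S := fun z => ⟨hneg z, fun h => by
    have := hneg _ h; rwa [neg_neg] at this⟩
  have h1 : ∀ x y : ZMod n, y - x ∈ S \ evens n ↔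
      y - x ∈ S ∧ Helper589Four.par y ≠ Helper589Four.par x := by
    intro x y
    have h2 : y - x ∈ evens n ↔ Helper589Four.par y = Helper589Four.par x := by
      rw [mem_evens, Helper589Four.par_sub]
      constructor
      · exact Helper589Four.z2_eq
      · intro h; rw [h, Helper589Four.z2_add_self]
    rw [Set.mem_diff, SetLike.mem_coe, h2]
  rw [h1, h1, glue_par, glue_par]
  apply and_congr_left
  intro h2
  rcases Helper589Four.z2_cases (Helper589Four.par x) with hx | hx <;>
    rcases Helper589Four.z2_cases (Helper589Four.par y) with hy | hy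
  · exact absurd (hy.trans hx.symm) h2
  · rw [glue_even hα hβ hx, glue_odd hα hβ hy]
    exact ind_iff (hT x y)
  · rw [glue_even hα hβ hy, glue_odd hα hβ hx, hsym (y - x), hsym (α y - β x), neg_sub, neg_sub]
    exact ind_iff (hT y x)
  · exact absurd (hy.trans hx.symm) h2

end Glue

/-- **Theorem.** If 8 divides n, then every nontrivially unstable circulant graph Cay(Z_n, S) is
of Type I. -/
theorem result (n : ℕ) (hpos : 0 < n) (h8 : 8 ∣ n) (S : Set (ZMod n)) (hneg : ∀ x ∈ S, -x ∈ S)
    (h0 : (0 : ZMod n) ∉ S) (hU : NontriviallyUnstable (circ S)) : TypeI S := by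
  have : NeZero n := ⟨by omega⟩
  have : Fact (4 ∣ n) := ⟨dvd_trans (by norm_num) h8⟩
  have hadj := circ_adj hneg h0
  have sym : ∀ x, ind S (-x) = ind S x := by
    intro x
    apply ind_congr
    constructor
    · intro h
      have := hneg _ h
      rwa [neg_neg] at this
    · exact hneg x
  obtain ⟨α₀, β₀, hTF, hne⟩ := exists_nontrivial hU
  have hT₀ : Helper589Four.TF (ind S) α₀ β₀ := by
    intro u v
    apply ind_congr
    rw [← hadj, ← hadj]
    exact (hTF u v).symm
  obtain ⟨α, β, hT, hα, hβ, hαβ⟩ := Helper589Four.main_eight h8 sym (by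
    intro t ht
    apply hU.2.2.2 t 0
    ext v
    rw [SimpleGraph.mem_neighborSet, SimpleGraph.mem_neighborSet, hadj, hadj, sub_zero]
    have h1 := ht (v - t)
    rw [sub_add_cancel] at h1
    exact (ind_iff h1).symm) hT₀ hne
  have hT' : Helper589Four.TF (ind S) β α := by
    intro u v
    have h1 := hT v u
    rw [← sym, neg_sub] at h1
    rw [h1, ← sym, neg_sub]
  have ho0 : (0 : ZMod n) ∉ S \ evens n := fun h => h0 h.1
  have honeg : ∀ x ∈ S \ evens n, -x ∈ S \ evens n := by
    rintro x ⟨h1, h2⟩
    exact ⟨hneg x h1, fun h3 => h2 (by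
      have := (evens n).neg_mem h3
      rwa [neg_neg] at this)⟩
  have hadjo := circ_adj honeg ho0
  let σ : circ (S \ evens n) ≃g circ (S \ evens n) := ⟨glue α β hα hβ, by
    intro x y
    rw [hadjo, hadjo]
    exact glue_aut hα hβ hneg hT x y⟩
  let ρ : circ (S \ evens n) ≃g circ (S \ evens n) := ⟨glue β α hβ hα, by
    intro x y
    rw [hadjo, hadjo]
    exact glue_aut hβ hα hneg hT' x y⟩
  have hσ : ∀ x, σ x = glue α β hα hβ x := fun x => rfl
  have hρ : ∀ x, ρ x = glue β α hβ hα x := fun x => rfl
  refine ⟨σ, ρ, ?_, ?_, ?_, ?_⟩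
  · intro h
    apply hαβ
    ext x
    have h1 : glue α β hα hβ x = glue β α hβ hα x := by rw [← hσ, ← hρ, h]
    rcases Helper589Four.z2_cases (Helper589Four.par x) with hx | hx
    · rw [glue_even hα hβ hx, glue_even hβ hα hx] at h1
      exact h1
    · rw [glue_odd hα hβ hx, glue_odd hβ hα hx] at h1
      exact h1.symm
  · exact image_evens (glue_par hα hβ)
  · exact image_evens (glue_par hβ hα)
  · rintro x y ⟨h1, h2⟩
    rw [hσ, hρ]
    have hp : Helper589Four.par y = Helper589Four.par x := by
      have h3 := (mem_evens _).1 h2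
      rw [Helper589Four.par_sub] at h3
      exact Helper589Four.z2_eq h3
    refine ⟨?_, ?_⟩
    · rcases Helper589Four.z2_cases (Helper589Four.par x) with hx | hx
      · rw [hx] at hp
        rw [glue_even hα hβ hx, glue_even hβ hα hp]
        exact (ind_iff (hT x y)).2 h1
      · rw [hx] at hp
        rw [glue_odd hα hβ hx, glue_odd hβ hα hp]
        exact (ind_iff (hT' x y)).2 h1
    · apply (mem_evens _).2
      rw [Helper589Four.par_sub, glue_par, glue_par, hp, Helper589Four.z2_add_self]

end Bridge

end Pool.Agent.Results.MP_d9b9c4_co.TypeOneOrderDivisibleByEight
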